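import Pool.Agent.W622.BK.Stm

set_option autoImplicit false

namespace Pool.Agent.W303.BK

open Module Pool.Agent.W622.BK

universe u

theorem D_bot (k : Type u) [Field k] (E : Type u) [AddCommGroup E] [Module k E]
    (R : Submodule k (E →ₗ[k] E →ₗ[k] k)) (p : ℕ) :
    D R (⊥ : Submodule k (E →ₗ[k] k)) (p + 1) = ⊥ := by
  induction p with
  | zero =>
    rw [eq_bot_iff]
    intro ω hω
    have h1 : one k E ω ∈ (⊥ : Submodule k (E →ₗ[k] k)) := hω
    rw [Submodule.mem_bot] at h1 ⊢
    apply (cur k E).injective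
    rw [map_zero]
    ext1 e
    apply (ev0 k E).injective
    have h2 := LinearMap.congr_fun h1 e
    rw [LinearMap.zero_apply, map_zero]
    exact h2
  | succ p ih =>
    rw [eq_bot_iff]
    intro ω hω
    have h1 : (∀ e, cur k E ω e ∈ D R (⊥ : Submodule k (E →ₗ[k] k)) (p + 1)) ∧
      InR R (cc k E ω) := hω
    rw [Submodule.mem_bot]
    apply (cur k E).injective
    rw [map_zero]
    ext1 e
    have h2 := h1.1 e
    rw [ih, Submodule.mem_bot] at h2
    rw [h2, LinearMap.zero_apply]

theorem t_EXB : Pool.Agent.W622.BK.S_EXB.{u} := by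
  intro k _ E _ _ R p _
  refine ⟨D_bot k E R p, ?_⟩
  intro T hT _
  refine ⟨0, 0, fun e => ?_, fun e e' => ?_, fun φ => ?_, fun e e' => ?_⟩
  · rw [LinearMap.zero_apply]; exact Submodule.zero_mem _
  · rw [LinearMap.zero_apply, LinearMap.zero_apply]; exact Submodule.zero_mem _
  · have h : (0 : E →ₗ[k] E →ₗ[k] G k E (p + 1)).compr₂ φ = 0 := by
      ext e e'
      simp
    rw [h]; exact R.zero_mem
  · have h1 := hT e e'
    rw [D_bot, Submodule.mem_bot] at h1
    rw [h1]
    simp

end Pool.Agent.W303.BK
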